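import Pool.Agent.Helper87.MX.Fr5

/-!
# MixingRates (MP_81910f_an), piece NA: the normalised non-atomic part
-/

set_option autoImplicit false

open MeasureTheory Finset Filter

namespace Pool.Agent.Helper58.MX

open Pool.Agent.Helper87.MX

/-- the set of points without mass is invariant up to a null set -/
theorem preimage_ae {μ : Measure Tor} [IsProbabilityMeasure μ] {g : ℕ} (hg : Inv g μ)
    (hA : MeasurableSet {x | μ {x} ≠ 0}) :
    (fun x : Tor => g • x) ⁻¹' {x | μ {x} = 0} =ᵐ[μ] ({x | μ {x} = 0} : Set Tor) := by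
  have hsub : {x | μ {x} ≠ 0} ⊆ (fun x : Tor => g • x) ⁻¹' {x | μ {x} ≠ 0} := by
    intro x hx
    show μ {g • x} ≠ 0
    have h1 : μ ((fun x : Tor => g • x) ⁻¹' {g • x}) = μ {g • x} :=
      hg.measure_preimage (MeasurableSet.singleton _).nullMeasurableSet
    rw [← h1]
    intro h2
    exact hx (measure_mono_null (fun y hy => by
      rw [Set.mem_singleton_iff] at hy
      subst hy
      rfl) h2)
  have h3 : μ ((fun x : Tor => g • x) ⁻¹' {x | μ {x} ≠ 0}) = μ {x | μ {x} ≠ 0} :=
    hg.measure_preimage hA.nullMeasurableSet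
  have h4 : {x | μ {x} ≠ 0} =ᵐ[μ] ((fun x : Tor => g • x) ⁻¹' {x | μ {x} ≠ 0} : Set Tor) :=
    ae_eq_of_subset_of_measure_ge hsub h3.le hA.nullMeasurableSet (measure_ne_top _ _)
  have h5 := h4.symm.compl
  have e1 : ((fun x : Tor => g • x) ⁻¹' {x | μ {x} ≠ 0})ᶜ =
      (fun x : Tor => g • x) ⁻¹' {x | μ {x} = 0} := by
    ext x
    simp
  have e2 : ({x | μ {x} ≠ 0} : Set Tor)ᶜ = {x | μ {x} = 0} := by
    ext x
    simp
  rw [e1, e2] at h5
  exact h5

theorem s_NA : S_NA := by
  intro μ hμ h2 h3 hne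
  have hc : Set.Countable {x | μ {x} ≠ 0} := by
    have h := Measure.countable_meas_pos_of_disjoint_iUnion (μ := μ) (As := fun x : Tor => {x})
      (fun x => MeasurableSet.singleton x) (fun x y hxy => Set.disjoint_singleton.2 hxy)
    refine h.mono fun x hx => ?_
    exact pos_iff_ne_zero.2 hx
  have hA : MeasurableSet {x | μ {x} ≠ 0} := hc.measurableSet
  have hB : MeasurableSet {x | μ {x} = 0} := by
    have e2 : ({x | μ {x} ≠ 0} : Set Tor)ᶜ = {x | μ {x} = 0} := by
      ext x
      simp
    rw [← e2]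
    exact hA.compl
  have hinv : ∀ g : ℕ, Inv g μ → MeasurePreserving (fun x : Tor => g • x)
      ((μ {x | μ {x} = 0})⁻¹ • μ.restrict {x | μ {x} = 0})
      ((μ {x | μ {x} = 0})⁻¹ • μ.restrict {x | μ {x} = 0}) := by
    intro g hg
    have h5 := hg.restrict_preimage hB
    rw [Measure.restrict_congr_set (preimage_ae hg hA)] at h5
    exact h5.smul_measure _
  refine ⟨(μ {x | μ {x} = 0})⁻¹ • μ.restrict {x | μ {x} = 0}, ⟨?_⟩, hinv 2 h2, hinv 3 h3,
    fun x => ?_, (μ {x | μ {x} = 0})⁻¹.toReal, ENNReal.toReal_nonneg, fun B => ?_⟩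
  · rw [Measure.smul_apply, Measure.restrict_apply_univ, smul_eq_mul]
    exact ENNReal.inv_mul_cancel hne (measure_ne_top _ _)
  · rw [Measure.smul_apply, Measure.restrict_apply (MeasurableSet.singleton x), smul_eq_mul]
    by_cases hx : μ {x} = 0
    · rw [measure_mono_null Set.inter_subset_left hx, mul_zero]
    · have e : ({x} ∩ {y | μ {y} = 0} : Set Tor) = ∅ := by
        ext y
        simp only [Set.mem_inter_iff, Set.mem_singleton_iff, Set.mem_ofPred_eq,
          Set.mem_empty_iff_false, iff_false, not_and]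
        intro hy
        rw [hy]
        exact hx
      rw [e, measure_empty, mul_zero]
  · rw [measureReal_def, measureReal_def, Measure.smul_apply, smul_eq_mul, ENNReal.toReal_mul]
    refine mul_le_mul_of_nonneg_left ?_ ENNReal.toReal_nonneg
    exact ENNReal.toReal_mono (measure_ne_top _ _) (Measure.restrict_apply_le _ _)

end Pool.Agent.Helper58.MX
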