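import Pool.Agent.Helper87.MX.Fr3
import Pool.Agent.Helper27.MX.RG1

/-!
# MixingRates (MP_81910f_an), piece RO: the averages are odd Lipschitz functions
-/

set_option autoImplicit false

open MeasureTheory Finset Filter

namespace Pool.Agent.Helper58.MX

open Pool.Agent.Helper87.MX

theorem s_RO : S_RO := by
  intro k j c F hk hc hF
  have hc' : 0 < ‖c‖ := norm_pos_iff.2 hc
  refine ⟨fun x => ?_, fun x y => ?_⟩
  · have h : rav 3 k F (x + ((1 / 2 : ℝ) : Tor)) = -rav 3 k F x := by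
      unfold rav
      rw [← neg_div, ← Finset.sum_neg_distrib]
      congr 1
      refine Finset.sum_congr rfl fun b _ => ?_
      exact Pool.Agent.Helper27.MX.fourier_half (hk.mul (Odd.pow (by decide))) x
    show rav 3 k F (x + ((1 / 2 : ℝ) : Tor)) / c = -(rav 3 k F x / c)
    rw [h, neg_div]
  · show ‖rav 3 k F x / c - rav 3 k F y / c‖ ≤ 2 ^ (j + 1) * ‖x - y‖
    rw [← sub_div, norm_div, div_le_iff₀ hc']
    have e : rav 3 k F x - rav 3 k F y =
        (∑ b ∈ F, ((fourier ((k * 3 ^ b : ℕ) : ℤ) x : ℂ) - fourier ((k * 3 ^ b : ℕ) : ℤ) y)) /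
          F.card := by
      unfold rav
      rw [Finset.sum_sub_distrib, sub_div]
    rw [e, norm_div, Complex.norm_natCast]
    have hnn : 0 ≤ 2 ^ (j + 1) * ‖x - y‖ * ‖c‖ := by positivity
    rcases F.eq_empty_or_nonempty with h0 | h0
    · subst h0
      simpa using hnn
    have hcard : (0 : ℝ) < F.card := by exact_mod_cast h0.card_pos
    rw [div_le_iff₀ hcard]
    calc ‖∑ b ∈ F, ((fourier ((k * 3 ^ b : ℕ) : ℤ) x : ℂ) - fourier ((k * 3 ^ b : ℕ) : ℤ) y)‖
        ≤ ∑ b ∈ F, 2 ^ (j + 1) * ‖x - y‖ * ‖c‖ := by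
          refine (norm_sum_le _ _).trans (Finset.sum_le_sum fun b hb => ?_)
          refine (Pool.Agent.Helper27.MX.fourier_lip (k * 3 ^ b) x y).trans ?_
          have h1 := hF b hb
          have h2 : 0 ≤ ‖x - y‖ := norm_nonneg _
          push_cast
          calc 2 * Real.pi * (k * 3 ^ b) * ‖x - y‖ = 2 * (Real.pi * k * 3 ^ b) * ‖x - y‖ := by ring
            _ ≤ 2 * (‖c‖ * 2 ^ j) * ‖x - y‖ := by gcongr
            _ = 2 ^ (j + 1) * ‖x - y‖ * ‖c‖ := by ring
      _ = 2 ^ (j + 1) * ‖x - y‖ * ‖c‖ * F.card := by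
          rw [Finset.sum_const, nsmul_eq_mul]
          ring

end Pool.Agent.Helper58.MX
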